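import Pool.Agent.Helper91.SY.Goals

/-!
# Walking around the compact set (packet SY-RC)
-/

set_option autoImplicit false

namespace Pool.Agent.Helper3.SY

open Pool.Agent.Helper91.SY

section
variable {E : Type} [NormedAddCommGroup E] [NormedSpace ℝ E]

theorem iter_add {R : ℝ} {e : E} {g : E ≃ E} (hg : Tr R e g) (w : E) :
    ∀ N : ℕ, (∀ j : ℕ, j < N → R ≤ ‖w + (j : ℝ) • e‖) →
      (fun x => g x)^[N] w = w + (N : ℝ) • e := by
  intro N
  induction N with
  | zero => intro _; simp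
  | succ n ih =>
    intro h
    rw [Function.iterate_succ_apply', ih (fun j hj => h j (by omega))]
    show g (w + (n : ℝ) • e) = _
    rw [hg _ (h n (by omega))]
    push_cast
    rw [add_smul, one_smul, add_assoc]

theorem far_of_lt {R : ℝ} {τ : E →L[ℝ] ℝ} {w : E} (h : τ w < -(‖τ‖ * R)) : R ≤ ‖w‖ := by
  by_contra hc
  push Not at hc
  have h1 : |τ w| ≤ ‖τ‖ * ‖w‖ := τ.le_opNorm w
  have h2 : ‖τ‖ * ‖w‖ ≤ ‖τ‖ * R := mul_le_mul_of_nonneg_left hc.le (norm_nonneg _)
  have h3 := neg_abs_le (τ w)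
  linarith

theorem far_of_gt {R : ℝ} {τ : E →L[ℝ] ℝ} {w : E} (h : ‖τ‖ * R < τ w) : R ≤ ‖w‖ := by
  by_contra hc
  push Not at hc
  have h1 : |τ w| ≤ ‖τ‖ * ‖w‖ := τ.le_opNorm w
  have h2 : ‖τ‖ * ‖w‖ ≤ ‖τ‖ * R := mul_le_mul_of_nonneg_left hc.le (norm_nonneg _)
  have h3 := le_abs_self (τ w)
  linarith

end

/-- packet SY-RC -/
theorem rc_ : StmtRC := by
  intro E _ _ R e e₂ τ τ₂ g g₂ ψ hR he he2 h2e h22 hg hg₂ hcomm hW
  set m : ℝ := ‖τ‖ * R with hm
  have hm0 : 0 ≤ m := mul_nonneg (norm_nonneg _) hR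
  refine ⟨R + 2 * m * ‖e‖, ?_⟩
  intro z hz
  obtain ⟨N, hN⟩ := exists_nat_gt (τ z + m)
  have hN' : τ z - N < -m := by linarith
  have hψ := hW z N hN'
  rw [hψ]
  by_cases hcase : τ z ≤ m
  · have hit := iter_add hg (z - (N : ℝ) • e) N ?_
    · rw [hit]; simp
    · intro j hj
      have hji : z - (N : ℝ) • e + (j : ℝ) • e = z - ((N : ℝ) - j) • e := by
        rw [sub_smul]; abel
      rw [hji]
      have hij : (0 : ℝ) ≤ (N : ℝ) - j := by
        have : (j : ℝ) < N := by exact_mod_cast hj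
        linarith
      by_cases h1 : τ (z - ((N : ℝ) - j) • e) < -m
      · exact far_of_lt h1
      · push Not at h1
        have h2 : τ (z - ((N : ℝ) - j) • e) = τ z - ((N : ℝ) - j) := by
          simp [he]
        rw [h2] at h1
        have h3 : (N : ℝ) - j ≤ 2 * m := by linarith
        have h4 : ‖((N : ℝ) - j) • e‖ ≤ 2 * m * ‖e‖ := by
          rw [norm_smul, Real.norm_eq_abs, abs_of_nonneg hij]
          exact mul_le_mul_of_nonneg_right h3 (norm_nonneg _)
        have h5 := norm_sub_norm_le z (((N : ℝ) - j) • e)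
        linarith
  · push Not at hcase
    obtain ⟨M, hM⟩ := exists_nat_gt (‖τ₂‖ * R - τ₂ z)
    have hM' : ‖τ₂‖ * R < τ₂ z + M := by linarith
    have a1 : (fun x => g₂ x)^[M] (z - (N : ℝ) • e) = z - (N : ℝ) • e + (M : ℝ) • e₂ := by
      apply iter_add hg₂
      intro j _
      apply far_of_lt (τ := τ)
      have : τ (z - (N : ℝ) • e + (j : ℝ) • e₂) = τ z - N := by simp [he, he2]
      rw [this]
      exact hN'
    have a2 : (fun x => g x)^[N] (z - (N : ℝ) • e + (M : ℝ) • e₂) = z + (M : ℝ) • e₂ := by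
      rw [iter_add hg]
      · abel
      · intro j _
        apply far_of_gt (τ := τ₂)
        have : τ₂ (z - (N : ℝ) • e + (M : ℝ) • e₂ + (j : ℝ) • e) = τ₂ z + M := by
          simp [h2e, h22]
        rw [this]
        exact hM'
    have a3 : (fun x => g₂ x)^[M] z = z + (M : ℝ) • e₂ := by
      apply iter_add hg₂
      intro j _
      apply far_of_gt (τ := τ)
      have : τ (z + (j : ℝ) • e₂) = τ z := by simp [he2]
      rw [this]
      exact hcase
    have hcm : Function.Commute (fun x => g x) (fun x => g₂ x) := fun x => hcomm x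
    have a4 : (fun x => g₂ x)^[M] ((fun x => g x)^[N] (z - (N : ℝ) • e))
        = (fun x => g x)^[N] ((fun x => g₂ x)^[M] (z - (N : ℝ) • e)) :=
      ((hcm.iterate_iterate N M) (z - (N : ℝ) • e)).symm
    have hinj : Function.Injective ((fun x => g₂ x)^[M]) := g₂.injective.iterate M
    apply hinj
    rw [a4, a1, a2, a3]

end Pool.Agent.Helper3.SY
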